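import Pool.Agent.Lib.MP_5d3e93_al.Rd

/-! Closure properties of the class `Hyper`. -/

open QuotientGroup

namespace Pool.Agent.Lib.MP_5d3e93_al

variable {D D' : Type*} [Group D] [Group D']

theorem hyper_iff : Hyper D ↔ ∀ (M : Subgroup D) [M.Normal], M ≠ ⊤ → ∃ N : Subgroup D, N.Normal ∧
    M < N ∧ ∀ H ≤ N, H.FG → VP (H.map (mk' M)) := by
  refine forall₃_congr fun M _ _ => ⟨fun ⟨N, a, b, c⟩ => ⟨N.comap (mk' M), a.comap _,
    lt_of_le_of_ne (fun x k => ?_) fun e => b (eq_bot_iff.2 fun x k => ?_), fun H d e =>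
      (c _ (Subgroup.map_le_iff_le_comap.2 d) (fg_map e _)).imp fun _ f => ps_sub.1 (pc_iff.1 f)⟩,
    fun ⟨N, a, b, c⟩ => ⟨N.map (mk' M), a.map _ (mk'_surjective M), fun e => b.not_ge fun x k => ?_,
      fun H d e => ?_⟩⟩
  · exact show (x : D ⧸ M) ∈ N from (eq_one_iff x).2 k ▸ one_mem _
  · obtain ⟨x, rfl⟩ := mk'_surjective M x
    exact (eq_one_iff x).2 (e.ge k)
  · exact (eq_one_iff x).1 (e.le ⟨x, k, rfl⟩)
  · obtain ⟨L, r, s, rfl⟩ := fg_lift e d
    exact (c L r s).imp fun _ f => pc_iff.2 (ps_sub.2 f)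

theorem Hyper.rel (h : Hyper D) (f : D' →* D) (M : Subgroup D') [M.Normal] (a : f.ker ≤ M)
    (b : M ≠ ⊤) : ∃ N : Subgroup D', N.Normal ∧ M < N ∧ ∀ H ≤ N, H.FG → VP (H.map (mk' M)) := by
  obtain ⟨K, -, ⟨k1, k2⟩, k3⟩ := zorn_le_nonempty₀ {K : Subgroup D | K.Normal ∧ K.comap f ≤ M}
    (fun c c1 c2 y c3 =>
      have e {x} := (Subgroup.mem_sSup_of_directedOn ⟨y, c3⟩ c2.directedOn (x := x)).1
      ⟨sSup c, ⟨⟨fun x k g => (e k).elim fun U d => le_sSup d.1 ((c1 d.1).1.conj_mem x d.2 g)⟩,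
        fun x k => (e k).elim fun U d => (c1 d.1).2 d.2⟩, fun _ => le_sSup⟩) ⊥ ⟨inferInstance, a⟩
  obtain ⟨N, n1, n2, n3⟩ := hyper_iff.1 h K fun e => b (top_le_iff.1 fun x _ => k2 (e.ge trivial))
  have := n1.comap f
  refine ⟨N.comap f ⊔ M, inferInstance, right_lt_sup.2 fun e => n2.not_ge (k3 ⟨n1, e⟩ n2.le),
    fun H d e => ?_⟩
  obtain ⟨L, r, s, t⟩ := fg_lift (u := mk' M) (H := N.comap f) (fg_map e (mk' M))
    ((Subgroup.map_mono d).trans_eq (by simp [Subgroup.map_sup]))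
  obtain ⟨m, l⟩ := n3 _ (Subgroup.map_le_iff_le_comap.2 r) (fg_map s f)
  rw [Subgroup.map_map] at l
  exact ⟨m, t ▸ l.fac fun x k => (eq_one_iff x).2 (k2 ((eq_one_iff (f x)).1 k))⟩

theorem Hyper.inj (h : Hyper D) (f : D' →* D) (a : Function.Injective f) : Hyper D' :=
  hyper_iff.2 fun M _ b => h.rel f M (((MonoidHom.ker_eq_bot_iff f).2 a).trans_le bot_le) b

theorem Hyper.surj (h : Hyper D) (f : D →* D') (a : Function.Surjective f) : Hyper D' :=
  hyper_iff.2 fun M _ b => by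
    obtain ⟨N, n1, n2, n3⟩ := hyper_iff.1 h (M.comap f) fun e => b (top_le_iff.1 fun x _ => by
      obtain ⟨y, rfl⟩ := a x
      exact e.ge trivial)
    have := n1.map f a
    refine ⟨N.map f ⊔ M, inferInstance, right_lt_sup.2 fun e =>
      n2.not_ge (Subgroup.map_le_iff_le_comap.1 e), fun H d e => ?_⟩
    obtain ⟨L, r, s, t⟩ := fg_lift (u := (mk' M).comp f) (H := N) (fg_map e (mk' M))
      ((Subgroup.map_mono d).trans_eq (by simp [Subgroup.map_sup, Subgroup.map_map]))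
    exact (n3 L r s).imp fun m l => t ▸ l.fac fun x k =>
      (eq_one_iff (f x)).2 ((eq_one_iff x).1 k)

theorem Hyper.loc (h : Hyper D) : LocHyper D := fun H _ => h.inj H.subtype H.subtype_injective

theorem Hyper.le {U V : Subgroup D} (h : Hyper V) (a : U ≤ V) : Hyper U :=
  h.inj _ (Subgroup.inclusion_injective a)

theorem Hyper.map {U : Subgroup D} (h : Hyper U) (f : D →* D') : Hyper (U.map f) :=
  h.surj _ (f.subgroupMap_surjective U)

theorem LP.map {N : Subgroup D} (h : LP N) (f : D →* D') : LP (N.map f) := fun H a b => by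
  obtain ⟨L, r, s, rfl⟩ := fg_lift b a
  exact (h L r s).imp fun _ l => l.map f

theorem le_rad {N : Subgroup D} (a : N.Normal) (b : LP N) : N ≤ rad D :=
  le_iSup (fun N : {N : Subgroup D // N.Normal ∧ LP N} => N.1) ⟨N, a, b⟩

instance : (rad D).Characteristic := Subgroup.characteristic_iff_map_le.2 fun φ =>
  le_rad (.map inferInstance _ φ.surjective) (lp_rad.map _)

/-- Extensions. -/
theorem Hyper.ext (f : D →* D') (h : Hyper f.ker) (k : Hyper D') : Hyper D := fun M _ b => by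
  by_cases a : f.ker ≤ M
  · obtain ⟨N, n1, n2, n3⟩ := k.rel f M a b
    refine ⟨N.map (mk' M), n1.map _ (mk'_surjective M), fun e => n2.not_ge fun x k =>
      (eq_one_iff x).1 (e.le ⟨x, k, rfl⟩), fun H d e => ?_⟩
    obtain ⟨L, r, s, rfl⟩ := fg_lift e d
    exact (n3 L r s).imp fun _ f => pc_iff.2 (ps_sub.2 f)
  have := (inferInstance : f.ker.Normal).map _ (mk'_surjective M)
  obtain ⟨N, n1, n2, n3⟩ := hyper_iff.1 (h.map (mk' M)) ⊥ fun e => a fun x k =>
    (eq_one_iff x).1 (congrArg Subtype.val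
      (Subgroup.mem_bot.1 (e.ge (Subgroup.mem_top (⟨_, x, k, rfl⟩ : f.ker.map (mk' M))))))
  refine ⟨(rad (f.ker.map (mk' M))).map (Subgroup.subtype _), inferInstance, fun e => n2.not_ge
    ((le_rad n1 fun H d g => (n3 H d g).imp fun _ l => l.comap (f := mk' ⊥) (fun x _ y _ o =>
      by simpa [inv_mul_eq_one] using QuotientGroup.eq.1 o) le_rfl).trans_eq
        ((Subgroup.map_eq_bot_iff_of_injective _ (Subgroup.subtype_injective _)).1 e)),
    fun H d e => (lp_rad.map _ H d e).imp fun _ f => pc_iff.2 (ps_sub.2 f)⟩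

theorem LP.hyper (h : LP (⊤ : Subgroup D)) : Hyper D :=
  hyper_iff.2 fun _ _ b => ⟨⊤, inferInstance, b.lt_top, fun H a c =>
    (h H a c).imp fun _ l => l.map _⟩

theorem hyper_fin [Finite D] : Hyper D := LP.hyper fun _ _ _ => ⟨0, Set.toFinite _⟩

theorem vp_zpowers (x : D) : VP (Subgroup.zpowers x) :=
  ⟨1, by
    have : PS 1 (⊤ : Subgroup (Multiplicative ℤ)) := ⟨⊤, le_rfl, .of_le le_rfl, Multiplicative.toAdd,
      fun _ _ _ _ => rfl, (Set.finite_singleton 1).subset fun _ k => k.2⟩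
    exact (this.map (zpowersHom D x)).le fun _ ⟨k, e⟩ => ⟨.ofAdd k, trivial, e⟩⟩

theorem hyper_comm (h : ∀ a b : D, a * b = b * a) : Hyper D := LP.hyper fun H _ c => by
  obtain ⟨S, rfl, s⟩ := (Subgroup.fg_iff _).1 c
  clear * - h s
  induction S, s using Set.Finite.induction_on with
  | empty => exact ⟨0, by simp [PS]⟩
  | insert _ _ ih =>
    rw [Set.insert_eq, Subgroup.closure_union, ← Subgroup.zpowers_eq_closure]
    exact (vp_zpowers _).sup ih fun g _ => Subgroup.mem_normalizer_iff.2 fun y => by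
      rw [h g y, mul_inv_cancel_right]

/-- Finite index overgroups. -/
theorem Hyper.fi {U : Subgroup D} [U.FiniteIndex] (h : Hyper U) : Hyper D :=
  Hyper.ext (mk' U.normalCore) (h.le (by simp [U.normalCore_le])) hyper_fin

theorem Hyper.fi' {U V : Subgroup D} (h : Hyper U) (a : Fi U V) : Hyper V :=
  have : (U.subgroupOf V).FiniteIndex := ⟨a⟩
  Hyper.fi (U := U.subgroupOf V) (h.inj ((V.subtype.comp (U.subgroupOf V).subtype).codRestrict U
    fun x => x.2) fun _ _ e => Subtype.ext (Subtype.ext (Subtype.mk.inj e)))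

/-- Extensions, for a subgroup. -/
theorem Hyper.ext' {U : Subgroup D} (f : D →* D') (h : Hyper ↥(U ⊓ f.ker)) (k : Hyper (U.map f)) :
    Hyper U :=
  Hyper.ext (f.subgroupMap U) (h.inj ((U.subtype.comp (f.subgroupMap U).ker.subtype).codRestrict _
    fun x => ⟨x.1.2, Subtype.mk.inj x.2⟩) fun _ _ e => Subtype.ext (Subtype.ext (Subtype.mk.inj e))) k

theorem Hyper.prod (h : Hyper D) (k : Hyper D') : Hyper (D × D') :=
  Hyper.ext (.snd D D') (h.inj ((MonoidHom.fst D D').comp (Subgroup.subtype _))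
    fun x y e => Subtype.ext (Prod.ext e (x.2.trans y.2.symm))) k

end Pool.Agent.Lib.MP_5d3e93_al
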