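import Pool.Agent.Lib.MP_5d3e93_al.GQ.Hy

/-! Linear representations with abelian kernels. -/

open Module Submodule
open scoped Pointwise

namespace Pool.Agent.Lib.MP_5d3e93_al

variable {k : Type*} [Field k] {S : Type*} [Group S]

theorem ex_gl {V : Type*} [AddCommGroup V] [Module k V] [Module.Finite k V] (ρ : S →* End k V) :
    ∃ q : S →* GL (Fin (finrank k V)) k, ∀ g, q g = 1 ↔ ρ g = 1 :=
  ⟨((LinearMap.toMatrixAlgEquiv (finBasis k V)).toMulEquiv.toMonoidHom.comp ρ).toHomUnits, fun _ =>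
    Units.ext_iff.trans (map_eq_one_iff (LinearMap.toMatrixAlgEquiv (finBasis k V))
      (AlgEquiv.injective _))⟩

theorem comm_of_cyc {C U : Type*} [Group C] [IsCyclic C] [Group U] (f : S →* C) (ψ : S →* U)
    (h : ∀ z, f z = 1 → ∀ x, Commute (ψ z) (ψ x)) (x y : S) : Commute (ψ x) (ψ y) := by
  obtain ⟨⟨_, t, rfl⟩, e⟩ := IsCyclic.exists_zpow_surjective (G := f.range)
  have a (x : S) : ∃ (i : ℤ) (z : S), f z = 1 ∧ x = t ^ i * z := by
    obtain ⟨i, b⟩ := e ⟨_, x, rfl⟩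
    have : f t ^ i = f x := congrArg Subtype.val b
    exact ⟨i, (t ^ i)⁻¹ * x, by simp [this], by simp⟩
  obtain ⟨i, z, b, rfl⟩ := a x
  obtain ⟨j, w, c, rfl⟩ := a y
  rw [map_mul]
  refine .mul_left ?_ (h z b _)
  rw [map_mul]
  exact .mul_right (by simp) (h w c _).symm

theorem surj_on {V : Type*} [AddCommGroup V] [Module k V] {A : Submodule k V} [Module.Finite k A]
    {f : End k V} (a : Function.Injective f) (h : ∀ v ∈ A, f v ∈ A) : ∀ v ∈ A, ∃ w ∈ A, f w = v :=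
  fun v e => (LinearMap.surjective_of_injective (f := f.restrict h)
    (fun _ _ c => Subtype.ext (a (congrArg Subtype.val c))) ⟨v, e⟩).elim
      fun w c => ⟨w, w.2, congrArg Subtype.val c⟩

/-- Conjugation on a normalised span of finite dimension. -/
theorem ex_aut {R : Type*} [Ring R] [Algebra k R] (φ : S →* Rˣ) (N : Subgroup S) (t : S)
    (hg : Subgroup.closure (insert t N) = ⊤)
    (hf : Module.Finite k (span k ((fun g => (φ g : R)) '' N)))
    (hn : ∀ g ∈ N, (φ (t * g * t⁻¹) : R) ∈ span k ((fun g => (φ g : R)) '' N)) :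
    ∃ (m : ℕ) (q : S →* GL (Fin m) k), ∀ x ∈ q.ker, ∀ y ∈ q.ker, Commute (φ x) (φ y) := by
  generalize hA : span k ((fun g => (φ g : R)) '' N) = A at hf hn
  have a0 (g) (e : g ∈ N) : (φ g : R) ∈ A := hA ▸ subset_span ⟨g, e, rfl⟩
  have a1 (f : End k R) (e : ∀ g ∈ N, f (φ g) ∈ A) : ∀ a ∈ A, f a ∈ A :=
    fun a d => (span_le (p := A.comap f)).2 (Set.forall_mem_image.2 e) (hA ▸ d)
  have a2 (a) (d : a ∈ A) : ∀ b ∈ A, a * b ∈ A := a1 (.mulLeft k a) fun g e =>
    a1 (.mulRight k (φ g)) (fun h c => by simpa using a0 _ (mul_mem c e)) a d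
  let c : S →* End k R := ⟨⟨fun g => .mulLeftRight k (φ g, φ g⁻¹), by ext; simp⟩,
    fun g h => by ext; simp [mul_assoc]⟩
  have c0 (g a) : c g a = φ g * a * φ g⁻¹ := rfl
  have c1 (g h) : c g (φ h) = φ (g * h * g⁻¹) := by simp [c0]
  have c2 (g a) : c g⁻¹ (c g a) = a := by rw [← End.mul_apply, ← map_mul]; simp
  have c3 (g) : ∀ a ∈ A, c g a ∈ A := by
    have : g ∈ Subgroup.closure (insert t N) := hg ▸ trivial
    induction this using Subgroup.closure_induction with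
    | mem g e =>
      obtain rfl | e := e
      · exact a1 _ fun h d => c1 g h ▸ hn h d
      · exact a1 _ fun h d => c1 g h ▸ a0 _ (mul_mem (mul_mem e d) (inv_mem e))
    | one => simp
    | mul g h _ _ e f => exact fun a d => map_mul c g h ▸ e _ (f a d)
    | inv g _ e =>
      intro a d
      obtain ⟨b, f, rfl⟩ := surj_on (Function.LeftInverse.injective (c2 g)) e a d
      rwa [c2]
  obtain ⟨q, hq⟩ := ex_gl (S := S) (k := k) (V := A)
    ⟨⟨fun g => (c g).restrict (c3 g), by ext; simp⟩, fun g h => by ext; simp⟩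
  let B : Subgroup S :=
    { carrier := {g | (φ g : R) ∈ A ∧ (φ g⁻¹ : R) ∈ A}
      one_mem' := ⟨a0 1 N.one_mem, a0 _ (inv_mem N.one_mem)⟩
      mul_mem' a b := ⟨by simpa using a2 _ a.1 _ b.1, by simpa using a2 _ b.2 _ a.2⟩
      inv_mem' a := ⟨a.2, by simpa using a.1⟩ }
  have : B.Normal := ⟨fun x e g => ⟨c1 g x ▸ c3 g _ e.1, by
    simpa [c0, mul_assoc] using c3 g _ e.2⟩⟩
  have : IsCyclic (S ⧸ B) := ⟨(t : S ⧸ B), fun x => by
    obtain ⟨g, rfl⟩ := QuotientGroup.mk_surjective x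
    exact (Subgroup.closure_le (K := (Subgroup.zpowers (t : S ⧸ B)).comap (QuotientGroup.mk' B))).2
      (Set.insert_subset (Subgroup.mem_zpowers _) fun h d => show (h : S ⧸ B) ∈ Subgroup.zpowers _ from
        (QuotientGroup.eq_one_iff (N := B) h).2 ⟨a0 h d, a0 _ (inv_mem d)⟩ ▸ one_mem _) (hg.ge trivial)⟩
  refine ⟨_, q, fun x d y e => comm_of_cyc ((QuotientGroup.mk' B).comp q.ker.subtype)
    (φ.comp q.ker.subtype) (fun z f w => Units.ext ?_) ⟨x, d⟩ ⟨y, e⟩⟩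
  have : c w (φ z) = φ z := congrArg Subtype.val (LinearMap.congr_fun ((hq w).1 w.2)
    ⟨_, ((QuotientGroup.eq_one_iff z.1).1 f).1⟩)
  rw [c0, map_inv, Units.mul_inv_eq_iff_eq_mul] at this
  exact this.symm

theorem Hyper.of_comm {U : Type*} [Group U] {φ : S →* U} (h : Hyper φ.ker) {E : Subgroup S}
    (c : ∀ x ∈ E, ∀ y ∈ E, Commute (φ x) (φ y)) : Hyper E :=
  Hyper.ext' φ (h.le inf_le_right) (hyper_comm fun ⟨_, x, a, rfl⟩ ⟨_, y, b, rfl⟩ =>
    Subtype.ext (c x a y b))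

/-- Stabilisers of proper subspaces. -/
theorem ex_blk {M : ℕ} (q : S →* GL (Fin M) k) (W : Submodule k (Fin M → k)) (h0 : W ≠ ⊥)
    (h1 : W ≠ ⊤) (hW : ∀ g, ∀ v ∈ W, (q g : Matrix (Fin M) (Fin M) k).mulVec v ∈ W) :
    ∃ r < M, ∃ s < M, ∃ (q₁ : S →* GL (Fin r) k) (q₂ : S →* GL (Fin s) k),
      ∀ H : Subgroup S, Hyper (H.map q₁) → Hyper (H.map q₂) → Hyper (H.map q) := by
  let ρ : q.range →* End k (Fin M → k) := Matrix.toLinAlgEquiv'.toMulEquiv.toMonoidHom.comp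
    ((Units.coeHom _).comp q.range.subtype)
  have r0 (g : q.range) : W ≤ W.comap (ρ g) := by
    obtain ⟨_, g, rfl⟩ := g
    exact hW g
  obtain ⟨p₁, a₁⟩ := ex_gl (S := q.range) (k := k) (V := W)
    ⟨⟨fun g => (ρ g).restrict (r0 g), by ext; simp⟩, fun g h => by ext; simp⟩
  obtain ⟨p₂, a₂⟩ := ex_gl (S := q.range) (k := k) (V := (Fin M → k) ⧸ W)
    ⟨⟨fun g => W.mapQ W (ρ g) (r0 g), by ext; simp⟩, fun g h => by ext; simp⟩
  have d := W.finrank_quotient_add_finrank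
  have d0 : finrank k W ≠ 0 := fun e => h0 (Submodule.finrank_eq_zero.1 e)
  have d1 := Submodule.finrank_lt h1
  rw [finrank_fin_fun] at d d1
  refine ⟨_, d1, _, by omega, p₁.comp q.rangeRestrict, p₂.comp q.rangeRestrict, fun H b₁ b₂ => ?_⟩
  rw [← Subgroup.map_map] at b₁ b₂
  rw [← q.subtype_comp_rangeRestrict, ← Subgroup.map_map]
  refine (Hyper.ext' p₁ (Hyper.ext' p₂ (hyper_comm fun x y => ?_)
    (b₂.le (Subgroup.map_mono inf_le_left))) b₁).map _
  have e (x : ↥(H.map q.rangeRestrict ⊓ p₁.ker ⊓ p₂.ker)) :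
      (∀ v ∈ W, ρ x v = v) ∧ ∀ v, ρ x v - v ∈ W :=
    ⟨fun v c => congrArg Subtype.val (LinearMap.congr_fun ((a₁ x).1 x.2.1.2) ⟨v, c⟩),
      fun v => (Submodule.Quotient.eq W).1 (LinearMap.congr_fun ((a₂ x).1 x.2.2) (W.mkQ v))⟩
  refine Subtype.ext (Subtype.ext (Units.ext (Matrix.toLinAlgEquiv'.injective
    (show ρ (x * y) = ρ (y * x) from LinearMap.ext fun v => ?_))))
  have f := (e x).1 _ ((e y).2 v)
  have g := (e y).1 _ ((e x).2 v)
  rw [map_sub, sub_eq_iff_eq_add] at f g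
  rw [map_mul, map_mul, End.mul_apply, End.mul_apply, f, g]
  abel

/-- Denominators of a finitely generated group of rational matrices. -/
theorem ex_den [Group.FG S] {n : Type*} [Fintype n] [DecidableEq n] (q : S →* GL n ℚ) :
    ∃ N : ℕ, 0 < N ∧ ∀ R : Subring ℚ, (N : ℚ)⁻¹ ∈ R → ∀ g i j, (q g : Matrix n n ℚ) i j ∈ R := by
  classical
  obtain ⟨T, hT⟩ := Group.fg_def.1 ‹Group.FG S›
  let d (x : S × n × n) : ℕ := ((q x.1 : Matrix n n ℚ) x.2.1 x.2.2).den
  refine ⟨∏ x ∈ (T ∪ T⁻¹) ×ˢ Finset.univ, d x, Finset.prod_pos fun x _ => Rat.den_pos _,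
    fun R hR g => ?_⟩
  have a (g) (e : g ∈ T ∪ T⁻¹) (i j) : (q g : Matrix n n ℚ) i j ∈ R := by
    obtain ⟨c, hc⟩ := Finset.dvd_prod_of_mem d (a := (g, i, j))
      (Finset.mem_product.2 ⟨e, Finset.mem_univ (i, j)⟩)
    have c0 : (c : ℚ) ≠ 0 := by
      rintro e
      exact (Finset.prod_pos fun x _ => Rat.den_pos _).ne' (hc.trans (by simp [Nat.cast_eq_zero.1 e]))
    rw [hc] at hR
    convert mul_mem (intCast_mem R ((q g : Matrix n n ℚ) i j).num) (mul_mem (natCast_mem R c) hR)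
    rw [Nat.cast_mul, mul_inv, mul_left_comm (c : ℚ), mul_inv_cancel₀ c0, mul_one]
    exact (Rat.num_div_den _).symm
  have : g ∈ Subgroup.closure (T : Set S) := hT ▸ trivial
  induction this using Subgroup.closure_induction'' with
  | mem g e => exact a g (Finset.mem_union_left _ e)
  | inv_mem g e => exact a _ (Finset.mem_union_right _ (Finset.inv_mem_inv e))
  | one =>
    intro i j
    rw [map_one, Units.val_one, Matrix.one_apply]
    split_ifs
    exacts [one_mem R, zero_mem R]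
  | mul g h _ _ e f =>
    intro i j
    rw [map_mul, Units.val_mul, Matrix.mul_apply]
    exact sum_mem fun l _ => mul_mem (e i l) (f l j)

end Pool.Agent.Lib.MP_5d3e93_al
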