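import Pool.Agent.Lib.MP_5d3e93_al.GQ.HyL
import Pool.Agent.Lib.MP_5d3e93_al.K.Union
import Pool.Agent.Lib.MP_5d3e93_al.K.Tw

/-! Locality of the vanishing and the induction on the size of the matrices. -/

open CategoryTheory Limits

namespace Pool.Agent.Lib.MP_5d3e93_al

universe w v u

variable {C : Type u} [Category.{v} C] [Preadditive C] [HasBinaryBiproducts C] [HasZeroObject C]

/-- The vanishing is local. -/
theorem kz_fg {Γ : Type w} [Group Γ] {σ : Act Γ C}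
    (h : ∀ H : Subgroup Γ, H.FG → KZ (σ.comap H.subtype)) : KZ σ := by
  classical
  exact GC.zq_union (ι := Finset Γ)
    (fun T => Rl.pt ((Subgroup.closure (T : Set Γ)).comap (.fst Γ Zi)))
    (fun _ _ a _ _ _ k => Subgroup.closure_mono a k) (fun _ _ _ _ _ => trivial)
    (fun _ g _ _ => ⟨{g.1}, Subgroup.subset_closure (by simp)⟩)
    fun T => (kz_sub _).1 (h _ ⟨T, rfl⟩)

/-- The induction on the size, from the statement with parabolic subgroups in the family. -/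
theorem glq_ind {k : Type*} [Field k]
    (core : ∀ (M : ℕ), 0 < M → ∀ (Γ : Type w) [Group Γ] [Group.FG Γ] (σ : Act Γ C), Sw σ →
      ∀ q : Γ →* GL (Fin M) k, (∀ H : Subgroup Γ, Hyper (H.map q) ∨
        (∃ W : Submodule k (Fin M → k), W ≠ ⊥ ∧ W ≠ ⊤ ∧
          ∀ g ∈ H, ∀ v ∈ W, (q g : Matrix (Fin M) (Fin M) k).mulVec v ∈ W) →
        KZ (σ.comap H.subtype)) → KZ σ)
    (M : ℕ) : ∀ (Γ : Type w) [Group Γ] (σ : Act Γ C), Sw σ → ∀ q : Γ →* GL (Fin M) k,
      (∀ (Δ : Type w) [Group Δ] (j : Δ →* Γ), Function.Injective j → Hyper (q.comp j).range →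
        KZ (σ.comap j)) → KZ σ := by
  induction M using Nat.strong_induction_on with | h M ih => ?_
  intro Γ _ σ hs q h
  obtain rfl | M0 := M.eq_zero_or_pos
  · exact h Γ (.id Γ) Function.injective_id (hyper_comm fun _ _ => Subsingleton.elim _ _)
  refine kz_fg fun F a => ?_
  have := (Group.fg_iff_subgroup_fg F).2 a
  refine core M M0 F _ (hs.comap _) (q.comp F.subtype) fun H b => ?_
  have i := F.subtype_injective.comp H.subtype_injective
  obtain b | ⟨W, b0, b1, b⟩ := b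
  · exact h H (F.subtype.comp H.subtype) i (b.le fun _ ⟨x, e⟩ => ⟨x, x.2, e⟩)
  obtain ⟨r, r0, s, s0, q₁, q₂, c⟩ := ex_blk ((q.comp F.subtype).comp H.subtype) W b0 b1
    fun g => b g g.2
  refine ih r r0 H _ ((hs.comap _).comap _) q₁ fun Δ _ j d e => ?_
  refine ih s s0 Δ _ (((hs.comap _).comap _).comap _) (q₂.comp j) fun Δ' _ j' d' e' => ?_
  exact h Δ' (((F.subtype.comp H.subtype).comp j).comp j') ((i.comp d).comp d')
    ((c (j.comp j').range (e.le fun _ ⟨_, ⟨x, rfl⟩, l⟩ => ⟨j' x, l⟩)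
      (e'.le fun _ ⟨_, ⟨x, rfl⟩, l⟩ => ⟨x, l⟩)).le fun _ ⟨x, l⟩ => ⟨_, ⟨x, rfl⟩, l⟩)

/-- The form used for the pairs of the relative theorem. -/
theorem kz_pair {k : Type*} [Field k]
    (hy : ∀ (Γ : Type w) [Group Γ] (σ : Act Γ C), Sw σ → Hyper Γ → KZ σ)
    (glq : ∀ (M : ℕ) (Γ : Type w) [Group Γ] (σ : Act Γ C), Sw σ → ∀ q : Γ →* GL (Fin M) k,
      (∀ (Δ : Type w) [Group Δ] (j : Δ →* Γ), Function.Injective j → Hyper (q.comp j).range →
        KZ (σ.comap j)) → KZ σ)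
    {V : Type w} [Group V] {σ : Act V C} (hs : Sw σ) {R : Type*} [Ring R] [Algebra k R]
    (φ : V →* Rˣ) (hφ : Hyper φ.ker) (N : Subgroup V) (t : V)
    (hg : Subgroup.closure (insert t N) = ⊤)
    (hf : Module.Finite k (Submodule.span k ((fun g => (φ g : R)) '' N)))
    (hn : ∀ g ∈ N, (φ (t * g * t⁻¹) : R) ∈ Submodule.span k ((fun g => (φ g : R)) '' N)) :
    KZ σ := by
  obtain ⟨m, q, c⟩ := ex_aut φ N t hg hf hn
  exact glq m V σ hs q fun Δ _ j a b => hy Δ _ (hs.comap j) (Hyper.ext (q.comp j).rangeRestrict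
    ((hφ.of_comm c).inj ((j.comp (Subgroup.subtype _)).codRestrict _ fun x => Subtype.mk.inj x.2)
      fun _ _ e => Subtype.ext (a (Subtype.mk.inj e))) b)

end Pool.Agent.Lib.MP_5d3e93_al
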