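import Mathlib

/-! Diagonal norms at a real or ultrametric place; the key estimate on partial seminorms. -/

namespace Pool.Agent.Lib.MP_5d3e93_al.GQ

open Finset

variable {M : ℕ}

/-- The properties shared by the `ℓ²` norm and the maximum norm on nonnegative vectors. -/
structure Ab (N : (Fin M → ℝ) → ℝ) : Prop where
  mono : ∀ {x y}, 0 ≤ x → x ≤ y → N x ≤ N y
  add : ∀ {x y}, 0 ≤ x → 0 ≤ y → N (x + y) ≤ N x + N y
  smul : ∀ {c : ℝ} {x}, 0 ≤ c → 0 ≤ x → N (fun k => c * x k) = c * N x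
  single : ∀ k {c : ℝ}, 0 ≤ c → N (Pi.single k c) = c
  swap : ∀ X : Fin M → Fin M → ℝ, (∀ i k, 0 ≤ X i k) →
    N (fun k => N fun i => X i k) = N fun i => N (X i)
  step : ∀ Θ : Fin M → ℝ, 0 ≤ Θ → Monotone Θ → ∃ c, 0 ≤ c ∧ c ≤ Θ ∧
    (∀ k, N (fun i => if i ≤ k then c i else 0) = Θ k) ∧ ∀ i k, k < i → Θ k = Θ i → c i = 0

theorem ab_l2 : Ab fun x : Fin M → ℝ => √(∑ k, x k ^ 2) where
  mono h k := Real.sqrt_le_sqrt (sum_le_sum fun i _ => pow_le_pow_left₀ (h i) (k i) 2)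
  add {x y} _ _ := by
    simpa [EuclideanSpace.norm_eq] using norm_add_le (WithLp.toLp 2 x : EuclideanSpace ℝ (Fin M))
      (WithLp.toLp 2 y)
  smul {c x} h _ := by
    simp only [mul_pow, ← mul_sum]
    rw [Real.sqrt_mul (sq_nonneg c), Real.sqrt_sq h]
  single k c h := by
    rw [sum_eq_single k (fun j _ e => by simp [e]) (by simp)]
    simp [Real.sqrt_sq h]
  swap X _ := by
    simp only [Real.sq_sqrt (sum_nonneg fun _ _ => sq_nonneg _)]
    rw [sum_comm]
  step Θ h0 hm := by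
    let g : ℕ → ℝ := fun
      | 0 => 0
      | n + 1 => if h : n < M then Θ ⟨n, h⟩ ^ 2 else 0
    have g1 : ∀ i : Fin M, g (i + 1) = Θ i ^ 2 := fun i => dif_pos i.2
    have g2 : ∀ i : Fin M, 0 ≤ g i ∧ g i ≤ Θ i ^ 2 ∧ ∀ k < i, Θ k ^ 2 ≤ g i := by
      rintro ⟨_ | n, hn⟩
      · exact ⟨le_rfl, sq_nonneg _, fun k hk => absurd hk (Nat.not_lt_zero _)⟩
      · have e : g (n + 1) = Θ ⟨n, by omega⟩ ^ 2 := g1 ⟨n, by omega⟩
        refine ⟨e ▸ sq_nonneg _, e ▸ pow_le_pow_left₀ (h0 _) (hm (Nat.le_succ n)) 2,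
          fun k hk => e ▸ pow_le_pow_left₀ (h0 _) (hm (Nat.le_of_lt_succ hk)) 2⟩
    refine ⟨fun i => √(g (i + 1) - g i), fun i => Real.sqrt_nonneg _, fun i => ?_, fun k => ?_,
      fun i k hk e => ?_⟩
    · exact Real.sqrt_le_iff.2 ⟨h0 i, by rw [g1]; exact sub_le_self _ (g2 i).1⟩
    · have : ∀ i : Fin M, (if i ≤ k then √(g (i + 1) - g i) else 0) ^ 2 =
          if (i : ℕ) < k + 1 then g (i + 1) - g i else 0 := fun i => by
        by_cases c : i ≤ k
        · rw [if_pos c, if_pos (Nat.lt_succ_of_le c), Real.sq_sqrt (by rw [g1]; linarith [g2 i])]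
        · rw [if_neg c, if_neg fun l => c (Nat.le_of_lt_succ l), zero_pow two_ne_zero]
      simp only [this]
      rw [Fin.sum_univ_eq_sum_range (fun i => if i < k + 1 then g (i + 1) - g i else 0) M,
        ← sum_filter, show (range M).filter (fun i => i < (k : ℕ) + 1) = range (k + 1) by
          ext; simp only [mem_filter, mem_range]; omega, sum_range_sub, g1]
      exact (congrArg _ (sub_zero _)).trans (Real.sqrt_sq (h0 k))
    · exact Real.sqrt_eq_zero'.2 (by rw [g1, ← e]; linarith [(g2 i).2.2 k hk])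

theorem ab_sup : Ab fun x : Fin M → ℝ => ⨆ k, x k := by
  have le : ∀ (x : Fin M → ℝ) k, x k ≤ ⨆ k, x k := fun x k => le_ciSup (Finite.bddAbove_range x) k
  have nn : ∀ x : Fin M → ℝ, 0 ≤ x → 0 ≤ ⨆ k, x k := fun x h => Real.iSup_nonneg h
  refine ⟨fun h k => Real.iSup_le (fun i => (k i).trans (le _ i)) (nn _ (h.trans k)),
    fun h k => Real.iSup_le (fun i => add_le_add (le _ i) (le _ i)) (add_nonneg (nn _ h) (nn _ k)),
    fun h _ => (Real.mul_iSup_of_nonneg h _).symm, fun k c h => ?_, fun X h => ?_,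
    fun Θ h0 hm => ?_⟩
  · refine le_antisymm (Real.iSup_le (fun i => ?_) h) (by simpa using le (Pi.single k c) k)
    by_cases e : i = k <;> simp [e, h]
  · exact le_antisymm
      (Real.iSup_le (fun k => Real.iSup_le (fun i => (le (X i) k).trans (le (fun i => ⨆ k, X i k) i))
        (nn _ fun i => nn _ (h i))) (nn _ fun i => nn _ (h i)))
      (Real.iSup_le (fun i => Real.iSup_le (fun k => (le (X · k) i).trans
        (le (fun k => ⨆ i, X i k) k)) (nn _ fun k => nn _ (h · k))) (nn _ fun k => nn _ (h · k)))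
  · classical
    refine ⟨fun i => if ∃ k < i, Θ k = Θ i then 0 else Θ i, fun i => ?_, fun i => ?_, fun k => ?_,
      fun i k hk e => if_pos ⟨k, hk, e⟩⟩
    · dsimp only
      split_ifs
      exacts [le_rfl, h0 i]
    · dsimp only
      split_ifs
      exacts [h0 i, le_rfl]
    · refine le_antisymm (Real.iSup_le (fun i => ?_) (h0 k)) ?_
      · dsimp only
        split_ifs with a
        exacts [h0 k, hm a, h0 k]
      · obtain ⟨i, hi, m⟩ := (univ.filter fun i => Θ i = Θ k).exists_min_image id ⟨k, by simp⟩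
        have hi : Θ i = Θ k := by simpa using hi
        refine le_trans ?_ (le _ i)
        dsimp only
        rw [if_pos (show i ≤ k from m k (by simp)),
          if_neg fun ⟨j, a, b⟩ => (m j (by simp [b, hi])).not_gt a, hi]

namespace Ab

variable {N : (Fin M → ℝ) → ℝ} (hN : Ab N)
include hN

theorem zero : N 0 = 0 :=
  (congrArg N (funext fun _ => (zero_mul _).symm)).trans
    ((hN.smul (c := 0) (x := 0) le_rfl le_rfl).trans (zero_mul _))

theorem nonneg {x : Fin M → ℝ} (h : 0 ≤ x) : 0 ≤ N x := hN.zero ▸ hN.mono le_rfl h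

theorem le {x : Fin M → ℝ} (h : 0 ≤ x) (k : Fin M) : x k ≤ N x :=
  (hN.single k (h k)).symm.trans_le (hN.mono (Pi.single_nonneg.2 (h k)) fun j => by
    by_cases e : j = k
    · simp [e]
    · simpa [e] using h j)

theorem sum {ι : Type*} (s : Finset ι) {x : ι → Fin M → ℝ} (h : ∀ i, 0 ≤ x i) :
    N (∑ i ∈ s, x i) ≤ ∑ i ∈ s, N (x i) := by
  classical
  induction s using Finset.induction_on with
  | empty => simp [hN.zero]
  | insert i s hi ih =>
    rw [sum_insert hi, sum_insert hi]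
    exact (hN.add (h i) (sum_nonneg fun j _ => h j)).trans (add_le_add le_rfl ih)

theorem le_sum {x : Fin M → ℝ} (h : 0 ≤ x) : N x ≤ ∑ k, x k := by
  conv_lhs => rw [← univ_sum_single x]
  exact (hN.sum _ fun k => Pi.single_nonneg.2 (h k)).trans_eq
    (sum_congr rfl fun k _ => hN.single k (h k))

theorem le_const {x : Fin M → ℝ} (h : 0 ≤ x) {c : ℝ} (k : ∀ i, x i ≤ c) : N x ≤ M * c :=
  (hN.le_sum h).trans ((sum_le_sum fun i _ => k i).trans_eq (by simp))

end Ab

variable {K V : Type*} [NormedField K] [AddCommGroup V] [Module K V] {N : (Fin M → ℝ) → ℝ}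

/-- The seminorm that is diagonal in the coordinates `f` with weights `w`. -/
def nm (N : (Fin M → ℝ) → ℝ) (f : V ≃ₗ[K] (Fin M → K)) (w : Fin M → ℝ) (t : V) : ℝ :=
  N fun k => w k * ‖f t k‖

/-- The weights from the index `i` on. -/
def cut (i : Fin M) (w : Fin M → ℝ) : Fin M → ℝ := fun k => if i ≤ k then w k else 0

theorem cut_nonneg (i : Fin M) {w : Fin M → ℝ} (h : 0 ≤ w) : 0 ≤ cut i w := fun k => by
  unfold cut
  split_ifs
  exacts [h k, le_rfl]

theorem cut_le (i : Fin M) {w : Fin M → ℝ} (h : 0 ≤ w) : cut i w ≤ w := fun k => by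
  unfold cut
  split_ifs
  exacts [le_rfl, h k]

namespace Ab

variable (hN : Ab N) (f : V ≃ₗ[K] (Fin M → K)) {w w' : Fin M → ℝ} (h : 0 ≤ w)
include hN h

theorem nm_nonneg (t : V) : 0 ≤ nm N f w t := hN.nonneg fun k => mul_nonneg (h k) (norm_nonneg _)

theorem nm_coord (t : V) (k : Fin M) : w k * ‖f t k‖ ≤ nm N f w t :=
  hN.le (x := fun k => w k * ‖f t k‖) (fun k => mul_nonneg (h k) (norm_nonneg _)) k

theorem nm_mono (k : w ≤ w') (t : V) : nm N f w t ≤ nm N f w' t :=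
  hN.mono (fun j => mul_nonneg (h j) (norm_nonneg _))
    fun j => mul_le_mul_of_nonneg_right (k j) (norm_nonneg _)

theorem nm_mul {c : ℝ} (hc : 0 ≤ c) (t : V) : nm N f (fun k => c * w k) t = c * nm N f w t := by
  simp only [nm, mul_assoc]
  exact hN.smul hc fun k => mul_nonneg (h k) (norm_nonneg _)

theorem nm_smul (c : K) (t : V) : nm N f w (c • t) = ‖c‖ * nm N f w t := by
  simp only [nm, map_smul, Pi.smul_apply, smul_eq_mul, norm_mul, mul_left_comm _ ‖c‖]
  exact hN.smul (norm_nonneg c) fun k => mul_nonneg (h k) (norm_nonneg _)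

theorem nm_zero : nm N f w 0 = 0 := by
  simpa using hN.nm_smul f h 0 0

theorem nm_add (t u : V) : nm N f w (t + u) ≤ nm N f w t + nm N f w u :=
  (hN.mono (fun k => mul_nonneg (h k) (norm_nonneg _)) fun k => by
    rw [map_add, Pi.add_apply, Pi.add_apply, ← mul_add]
    exact mul_le_mul_of_nonneg_left (norm_add_le _ _) (h k)).trans
    (hN.add (fun k => mul_nonneg (h k) (norm_nonneg _)) fun k => mul_nonneg (h k) (norm_nonneg _))

theorem nm_sum {ι : Type*} (s : Finset ι) (t : ι → V) :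
    nm N f w (∑ i ∈ s, t i) ≤ ∑ i ∈ s, nm N f w (t i) := by
  classical
  induction s using Finset.induction_on with
  | empty => simp [hN.nm_zero f h]
  | insert i s hi ih =>
    rw [sum_insert hi, sum_insert hi]
    exact (hN.nm_add f h _ _).trans (add_le_add le_rfl ih)

theorem nm_basis (k : Fin M) (c : K) : nm N f w (f.symm (Pi.single k c)) = w k * ‖c‖ := by
  rw [← hN.single k (mul_nonneg (h k) (norm_nonneg c)), nm, f.apply_symm_apply]
  refine congrArg N (funext fun j => ?_)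
  by_cases e : j = k
  · simp [e]
  · simp [e]

theorem nm_le_sum (t : V) : nm N f w t ≤ ∑ k, w k * ‖f t k‖ :=
  hN.le_sum fun k => mul_nonneg (h k) (norm_nonneg _)

/-- The partial seminorms are bounded by the norm with monotone factors. -/
theorem cut_le_nm {Θ : Fin M → ℝ} (h0 : 0 ≤ Θ) (hm : Monotone Θ) (i : Fin M) (t : V) :
    Θ i * nm N f (cut i w) t ≤ nm N f (w * Θ) t := by
  rw [← hN.nm_mul f (cut_nonneg i h) (h0 i)]
  refine hN.nm_mono f (fun k => mul_nonneg (h0 i) (cut_nonneg i h k)) (fun k => ?_) t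
  change Θ i * (if i ≤ k then w k else 0) ≤ w k * Θ k
  split_ifs with c
  · exact (mul_comm _ _).trans_le (mul_le_mul_of_nonneg_left (hm c) (h k))
  · exact (mul_zero _).trans_le (mul_nonneg (h k) (h0 k))

/-- The norm with monotone factors in terms of the partial seminorms. -/
theorem nm_step {Θ c : Fin M → ℝ} (h0 : 0 ≤ c)
    (e : ∀ k, N (fun i => if i ≤ k then c i else 0) = Θ k) (t : V) :
    nm N f (w * Θ) t = N fun i => c i * nm N f (cut i w) t := by
  have a : ∀ i, c i * nm N f (cut i w) t = N fun k => c i * (cut i w k * ‖f t k‖) := fun i =>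
    (hN.smul (h0 i) fun k => mul_nonneg (cut_nonneg i h k) (norm_nonneg _)).symm
  simp only [a]
  rw [← hN.swap _ fun i k => mul_nonneg (h0 i) (mul_nonneg (cut_nonneg i h k) (norm_nonneg _))]
  refine congrArg N (funext fun k => ?_)
  rw [Pi.mul_apply, ← e k, mul_right_comm, ← hN.smul (mul_nonneg (h k) (norm_nonneg _))
    (fun i => by dsimp only; split_ifs; exacts [h0 i, le_rfl])]
  refine congrArg N (funext fun i => ?_)
  unfold cut
  split_ifs <;> ring

end Ab

/-- The vector `t` without its coordinates below `i`, and the single coordinates. -/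
theorem key_split (f : V ≃ₗ[K] (Fin M → K)) (i : Fin M) (t : V) :
    t = f.symm (fun k => if i ≤ k then f t k else 0) +
      ∑ k ∈ univ.filter (· < i), f.symm (Pi.single k (f t k)) := by
  apply f.injective
  ext j
  simp only [map_add, map_sum, f.apply_symm_apply, Pi.add_apply, Finset.sum_apply,
    Pi.single_apply, sum_ite_eq, mem_filter, mem_univ, true_and]
  by_cases c : i ≤ j
  · simp [c, c.not_gt]
  · simp [c, not_le.1 c]

variable (hN : Ab N) {f f₁ : V ≃ₗ[K] (Fin M → K)} {a b a₁ b₁ Θ : Fin M → ℝ} {D Δ ε : ℝ}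
include hN

/-- The key estimate, multiplicative form. -/
theorem key (ha : 0 ≤ a) (hb : 0 ≤ b) (ha₁ : 0 ≤ a₁) (hb₁ : 0 ≤ b₁) (hΘ : 0 ≤ Θ) (hε : 0 ≤ ε)
    (hx : ∀ t, nm N f₁ a₁ t ≤ D * nm N f a t) (hξ : ∀ t, nm N f₁ b₁ t ≤ Δ * nm N f b t)
    (i : Fin M) {L : ℝ} (h0 : 0 ≤ L) (hL : ∀ j, i ≤ j → b₁ j ≤ L * a₁ j)
    (hg : ∀ k < i, Θ i * (L * (D * a k)) ≤ ε * (b k * Θ k)) (t : V) :
    Θ i * nm N f₁ (cut i b₁) t ≤ Δ * (Θ i * nm N f (cut i b) t) + M * ε * nm N f (b * Θ) t := by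
  have c₁ := cut_nonneg i hb₁
  have bΘ : 0 ≤ b * Θ := mul_nonneg hb hΘ
  have e1 : nm N f b (f.symm fun k => if i ≤ k then f t k else 0) = nm N f (cut i b) t := by
    refine congrArg N (funext fun k => ?_)
    rw [f.apply_symm_apply]
    unfold cut
    split_ifs <;> simp
  have e2 : ∀ u, nm N f₁ (cut i b₁) u ≤ L * (D * nm N f a u) := fun u =>
    ((hN.nm_mono f₁ c₁ (w' := fun k => L * a₁ k) (fun k => by
      unfold cut
      split_ifs with c
      exacts [hL k c, mul_nonneg h0 (ha₁ k)]) u).trans_eq (hN.nm_mul f₁ ha₁ h0 u)).trans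
      (mul_le_mul_of_nonneg_left (hx u) h0)
  have e3 : ∀ k ∈ univ.filter (· < i), Θ i * nm N f₁ (cut i b₁) (f.symm (Pi.single k (f t k))) ≤
      ε * nm N f (b * Θ) t := fun k hk => by
    refine (mul_le_mul_of_nonneg_left (e2 _) (hΘ i)).trans ?_
    rw [hN.nm_basis f ha]
    calc Θ i * (L * (D * (a k * ‖f t k‖))) = Θ i * (L * (D * a k)) * ‖f t k‖ := by ring
      _ ≤ ε * (b k * Θ k) * ‖f t k‖ :=
        mul_le_mul_of_nonneg_right (hg k (mem_filter.1 hk).2) (norm_nonneg _)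
      _ = ε * ((b * Θ) k * ‖f t k‖) := mul_assoc ..
      _ ≤ _ := mul_le_mul_of_nonneg_left (hN.nm_coord f bΘ t k) hε
  conv_lhs => rw [key_split f i t]
  refine (mul_le_mul_of_nonneg_left ((hN.nm_add f₁ c₁ _ _).trans
    (add_le_add ((hN.nm_mono f₁ c₁ (cut_le i hb₁) _).trans ((hξ _).trans_eq (by rw [e1])))
      (hN.nm_sum f₁ c₁ _ _))) (hΘ i)).trans ?_
  rw [mul_add, mul_left_comm, mul_sum, mul_assoc]
  refine add_le_add le_rfl ((sum_le_card_nsmul _ _ _ e3).trans ?_)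
  rw [nsmul_eq_mul]
  refine mul_le_mul_of_nonneg_right ?_ (mul_nonneg hε (hN.nm_nonneg f bΘ t))
  exact_mod_cast (card_le_univ _).trans_eq (Fintype.card_fin M)

/-- Cones of close data are close, multiplicative form. -/
theorem cone_close (ha : 0 ≤ a) (hb : 0 ≤ b) (ha₁ : 0 ≤ a₁) (hb₁ : 0 ≤ b₁) (hΘ : ∀ i, 0 < Θ i)
    (hm : Monotone Θ) (hΔ : 0 ≤ Δ) (hε : 0 ≤ ε) (hx : ∀ t, nm N f₁ a₁ t ≤ D * nm N f a t)
    (hξ : ∀ t, nm N f₁ b₁ t ≤ Δ * nm N f b t) {L : Fin M → ℝ} (h0 : 0 ≤ L)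
    (hL : ∀ i j, i ≤ j → b₁ j ≤ L i * a₁ j)
    (hg : ∀ i, (∀ k < i, Θ k < Θ i) → ∀ k < i, Θ i * (L i * (D * a k)) ≤ ε * (b k * Θ k)) (t : V) :
    nm N f₁ (b₁ * Θ) t ≤ (Δ + M ^ 2 * ε) * nm N f (b * Θ) t := by
  have h1 : 0 ≤ Θ := fun i => (hΘ i).le
  obtain ⟨c, c0, c1, e, z⟩ := hN.step Θ h1 hm
  have y0 := hN.nm_nonneg f (mul_nonneg hb h1) t
  have p0 : 0 ≤ M * ε * nm N f (b * Θ) t := mul_nonneg (mul_nonneg M.cast_nonneg hε) y0
  have s0 := fun i => mul_nonneg (c0 i) (hN.nm_nonneg f (cut_nonneg i hb) t)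
  have k : ∀ i, c i * nm N f₁ (cut i b₁) t ≤
      Δ * (c i * nm N f (cut i b) t) + M * ε * nm N f (b * Θ) t := fun i => by
    by_cases j : ∀ k < i, Θ k < Θ i
    · have := mul_le_mul_of_nonneg_left (key hN ha hb ha₁ hb₁ h1 hε hx hξ i (h0 i) (hL i) (hg i j) t)
        (div_nonneg (c0 i) (h1 i))
      have q := mul_le_of_le_one_left p0 ((div_le_one (hΘ i)).2 (c1 i))
      have r : c i / Θ i * Θ i = c i := div_mul_cancel₀ _ (hΘ i).ne'
      rw [← mul_assoc, r, mul_add, mul_left_comm, ← mul_assoc _ (Θ i), r] at this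
      exact this.trans (add_le_add le_rfl q)
    · push Not at j
      obtain ⟨k, hk, l⟩ := j
      rw [z i k hk (le_antisymm (hm hk.le) l)]
      simpa using p0
  rw [hN.nm_step f₁ hb₁ c0 e]
  refine (hN.mono (fun i => mul_nonneg (c0 i) (hN.nm_nonneg f₁ (cut_nonneg i hb₁) t))
    (y := (fun i => Δ * (c i * nm N f (cut i b) t)) + fun _ => M * ε * nm N f (b * Θ) t) k).trans
    ((hN.add (fun i => mul_nonneg hΔ (s0 i)) fun _ => p0).trans ?_)
  rw [hN.smul hΔ s0, ← hN.nm_step f hb c0 e]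
  refine (add_le_add le_rfl (hN.le_const (fun _ => p0) fun _ => le_rfl)).trans_eq (by ring)

/-- The norm with monotone factors is bounded by the partial seminorms at the jumps. -/
theorem nm_le_jumps (f : V ≃ₗ[K] (Fin M → K)) (hb : 0 ≤ b) (hΘ : 0 ≤ Θ) (hm : Monotone Θ) (t : V)
    {r : ℝ} (hr : 0 ≤ r) (h : ∀ i, (∀ k < i, Θ k < Θ i) → Θ i * nm N f (cut i b) t ≤ r) :
    nm N f (b * Θ) t ≤ M * r := by
  obtain ⟨c, c0, c1, e, z⟩ := hN.step Θ hΘ hm
  rw [hN.nm_step f hb c0 e]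
  refine hN.le_const (fun i => mul_nonneg (c0 i) (hN.nm_nonneg f (cut_nonneg i hb) t)) fun i => ?_
  by_cases j : ∀ k < i, Θ k < Θ i
  · exact (mul_le_mul_of_nonneg_right (c1 i) (hN.nm_nonneg f (cut_nonneg i hb) t)).trans (h i j)
  · push Not at j
    obtain ⟨k, hk, l⟩ := j
    rwa [z i k hk (le_antisymm (hm hk.le) l), zero_mul]

end Pool.Agent.Lib.MP_5d3e93_al.GQ
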