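import Pool.Agent.Lib.MP_5d3e93_al.K.CLa

/-! Covers of bounded order give coloured labels. -/

open MulAction Set

namespace Pool.Agent.Lib.MP_5d3e93_al

theorem Pth.symm {X : Type*} {ρ : X → X → Prop} (h : ∀ x y, ρ x y → ρ y x) {k : ℕ} :
    ∀ {x y : X}, Pth ρ k x y → Pth ρ k y x := by
  induction k with
  | zero => exact Eq.symm
  | succ k ih =>
    rintro x y ⟨z, a, b⟩
    exact Nat.add_comm 1 k ▸ (ih b).trans (m := 1) ⟨x, h _ _ a, rfl⟩

namespace GQ

/-- Nonempty finite sets of labels. -/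
@[ext] structure Fs (I : Type*) where
  s : Set I
  fin : s.Finite
  ne : s.Nonempty

variable {Γ Z I : Type*} [Group Γ] [MulAction Γ Z] [MulAction Γ I]

instance : MulAction Γ (Fs I) where
  smul g a := ⟨(g • ·) '' a.s, a.fin.image _, a.ne.image _⟩
  one_smul a := Fs.ext (show ((1 : Γ) • ·) '' a.s = a.s by simp)
  mul_smul g h a := Fs.ext (show ((g * h) • ·) '' a.s = (g • ·) '' ((h • ·) '' a.s) by
    simp [image_image, mul_smul])

theorem Fs.smul_s (g : Γ) (a : Fs I) : (g • a).s = (g • ·) '' a.s := rfl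

theorem Fs.mem_smul {g : Γ} {a : Fs I} {U : I} : U ∈ (g • a).s ↔ g⁻¹ • U ∈ a.s :=
  ⟨fun ⟨V, h, e⟩ => by simpa [← e] using h, fun h => ⟨_, h, smul_inv_smul g U⟩⟩

/-- A group that fixes a finite set of labels virtually fixes each of them. -/
theorem Fs.fi (a : Fs I) {H : Subgroup Γ} (h : H ≤ stabilizer Γ a) {U : I} (hU : U ∈ a.s) :
    (stabilizer Γ U).relIndex H ≠ 0 := by
  have e : (stabilizer Γ U).subgroupOf H = stabilizer H U := rfl
  rw [Subgroup.relIndex, e, index_stabilizer]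
  refine ((ncard_pos (a.fin.subset ?_)).2 ⟨U, mem_orbit_self U⟩).ne'
  rintro _ ⟨g, rfl⟩
  have := congrArg Fs.s (mem_stabilizer_iff.1 (h g.2))
  rw [← this]
  exact ⟨U, hU, rfl⟩

variable (ρ : Z → Z → Prop) (Mem : Z → I → Prop)

/-- The labels that contain the ball of radius `t`. -/
def deep (t : ℕ) (y : Z) : Set I := {U | ∀ y', Pth ρ t y y' → Mem y' U}

/-- Coloured labels: the colour is the number of deep labels. -/
def col (c : ℕ) (y : Z) (a : Fs I) : Prop := a.s.ncard = c + 1 ∧ ∃ t, a.s = deep ρ Mem t y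

variable {ρ Mem}

theorem deep_step {t r : ℕ} {y y' : Z} (p : Pth ρ r y y') :
    deep ρ Mem (t + r) y ⊆ deep ρ Mem t y' := fun _ h z q => h z (p.trans q)

theorem deep_anti (h1 : ∀ y, ρ y y) {s t : ℕ} (h : s ≤ t) (y : Z) :
    deep ρ Mem t y ⊆ deep ρ Mem s y := fun _ k z q => k z (GC.Pth.succ h1 h q)

theorem col_uniq (h1 : ∀ y, ρ y y) (c : ℕ) (y : Z) (a b : Fs I) (h : col ρ Mem c y a)
    (k : col ρ Mem c y b) : a = b := by
  obtain ⟨h, s, e⟩ := h
  obtain ⟨k, t, f⟩ := k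
  rcases le_total s t with m | m
  · exact Fs.ext (eq_of_subset_of_ncard_le (f ▸ e ▸ deep_anti h1 m y) (h.trans k.symm).le
      a.fin).symm
  · exact Fs.ext (eq_of_subset_of_ncard_le (f ▸ e ▸ deep_anti h1 m y) (k.trans h.symm).le b.fin)

theorem deep_smul (h3 : ∀ (g : Γ) x y, ρ x y → ρ (g • x) (g • y))
    (h5 : ∀ (g : Γ) y U, Mem y U → Mem (g • y) (g • U)) (g : Γ) {t : ℕ} {y : Z} {U : I}
    (h : U ∈ deep ρ Mem t y) : g • U ∈ deep ρ Mem t (g • y) := fun y' p =>
  smul_inv_smul g y' ▸ h5 g _ U (h _ (by simpa using p.smul h3 g⁻¹))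

theorem col_smul (h3 : ∀ (g : Γ) x y, ρ x y → ρ (g • x) (g • y))
    (h5 : ∀ (g : Γ) y U, Mem y U → Mem (g • y) (g • U)) (c : ℕ) (g : Γ) (y : Z) (a : Fs I)
    (h : col ρ Mem c y a) : col ρ Mem c (g • y) (g • a) := by
  obtain ⟨h, t, e⟩ := h
  refine ⟨(ncard_image_of_injective _ (MulAction.injective g)).trans h, t, ?_⟩
  ext U
  rw [Fs.mem_smul, e]
  exact ⟨fun k => by simpa using deep_smul h3 h5 g k,
    fun k => by simpa using deep_smul h3 h5 g⁻¹ k⟩

/-- A long ball inside one label gives a shorter ball inside one coloured label. -/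
theorem col_ex (h1 : ∀ y, ρ y y) (h2 : ∀ x y, ρ x y → ρ y x) {N R : ℕ} {y : Z}
    (fin : {U | Mem y U}.Finite) (ord : {U | Mem y U}.ncard ≤ N)
    (h : ∃ U, ∀ y', Pth ρ (2 * R * N) y y' → Mem y' U) :
    ∃ (c : Fin N) (a : Fs I), (∀ U ∈ a.s, Mem y U) ∧ ∀ y', Pth ρ R y y' → col ρ Mem c y' a := by
  have s0 (t) : deep ρ Mem t y ⊆ {U | Mem y U} := fun U k =>
    k y (GC.Pth.succ h1 (Nat.zero_le t) rfl)
  have ne (m) (k : m ≤ N) : (deep ρ Mem (2 * R * m) y).Nonempty :=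
    h.imp fun U a => deep_anti h1 (Nat.mul_le_mul_left _ k) y a
  obtain ⟨m, hm, e⟩ : ∃ m < N, deep ρ Mem (2 * R * m) y ⊆ deep ρ Mem (2 * R * (m + 1)) y := by
    by_contra! k
    have (m) (hm : m ≤ N) : (deep ρ Mem (2 * R * m) y).ncard + m ≤ N := by
      induction m with
      | zero => exact (ncard_le_ncard (s0 _) fin).trans ord
      | succ m ih =>
        have := ncard_lt_ncard (s := deep ρ Mem (2 * R * (m + 1)) y)
          ⟨deep_anti h1 (Nat.mul_le_mul_left _ m.le_succ) y, k m hm⟩ (fin.subset (s0 _))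
        have := ih (by omega)
        omega
    have a := this N le_rfl
    have := (ncard_pos (fin.subset (s0 _))).2 (ne N le_rfl)
    omega
  have a := (ncard_pos (fin.subset (s0 _))).2 (ne m hm.le)
  have b := (ncard_le_ncard (s0 (2 * R * m)) fin).trans ord
  refine ⟨⟨(deep ρ Mem (2 * R * m) y).ncard - 1, by omega⟩,
    ⟨_, fin.subset (s0 _), ne m hm.le⟩, s0 _, fun y' p => ⟨by simp only; omega, 2 * R * m + R,
      Subset.antisymm (e.trans ?_) (deep_step (p.symm h2))⟩⟩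
  rw [show 2 * R * (m + 1) = 2 * R * m + R + R by ring]
  exact deep_step p

end GQ

end Pool.Agent.Lib.MP_5d3e93_al
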