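import Mathlib

/-! Two splittable norms have a common frame: Euclidean and ultrametric case. -/

namespace Pool.Agent.Lib.MP_5d3e93_al.GQ

section Na

variable {K : Type*} [NormedField K] [IsUltrametricDist K]

theorem spl_add {x y : K} {w r : ℝ} (hw : 0 ≤ w) (hx : w * ‖x‖ ≤ r) (hy : w * ‖y‖ ≤ r) :
    w * ‖x + y‖ ≤ r :=
  (mul_le_mul_of_nonneg_left (IsUltrametricDist.norm_add_le_max x y) hw).trans (by
    rw [mul_max_of_nonneg _ _ hw]
    exact max_le hx hy)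

theorem spl_iff {x y : K} {w r : ℝ} (hw : 0 ≤ w) (h : w * ‖x - y‖ ≤ r) :
    w * ‖x‖ ≤ r ↔ w * ‖y‖ ≤ r :=
  ⟨fun a => by simpa using spl_add hw a (y := y - x) (by rwa [norm_sub_rev] at h),
    fun a => by simpa using spl_add hw a h⟩

theorem spl_sum {ι : Type*} (s : Finset ι) {x : ι → K} {w r : ℝ} (hw : 0 ≤ w) (hr : 0 ≤ r)
    (h : ∀ i ∈ s, w * ‖x i‖ ≤ r) : w * ‖∑ i ∈ s, x i‖ ≤ r :=
  Finset.sum_induction x (fun y => w * ‖y‖ ≤ r) (fun _ _ => spl_add hw) (by simpa using hr) h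

/-- Pivoting. -/
theorem spl_core (M : ℕ) : ∀ (A : (Fin M → K) →ₗ[K] Fin M → K) (w₁ w₂ : Fin M → ℝ),
    Function.Injective A → (∀ k, 0 < w₁ k) → (∀ k, 0 < w₂ k) →
    ∃ (F : (Fin M → K) →ₗ[K] Fin M → K) (a b : Fin M → ℝ), (∀ k, 0 < a k) ∧ (∀ k, 0 < b k) ∧
      ∀ t r, 0 ≤ r → ((∀ k, w₁ k * ‖t k‖ ≤ r) ↔ ∀ k, a k * ‖F t k‖ ≤ r) ∧
        ((∀ k, w₂ k * ‖A t k‖ ≤ r) ↔ ∀ k, b k * ‖F t k‖ ≤ r) := by
  induction M with
  | zero => exact fun A w₁ w₂ _ h₁ h₂ => ⟨A, w₁, w₂, h₁, h₂, by simp⟩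
  | succ M ih =>
    intro A w₁ w₂ hA h₁ h₂
    obtain ⟨⟨i, j⟩, hm⟩ := Finite.exists_max fun z : Fin (M + 1) × Fin (M + 1) =>
      w₂ z.2 * ‖A (Pi.single z.1 1) z.2‖ / w₁ z.1
    let e : Fin (M + 1) → K := Pi.single i 1
    have m1 (j') : w₂ j' * ‖A e j'‖ ≤ w₂ j * ‖A e j‖ :=
      (div_le_div_iff_of_pos_right (h₁ i)).1 (hm (i, j'))
    have he : A e j ≠ 0 := fun c => by
      have : A e = A 0 := funext fun j' => by
        have := m1 j'
        rw [c, norm_zero, mul_zero] at this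
        rw [map_zero]
        exact norm_le_zero_iff.1 (le_of_mul_le_mul_left (by simpa using this) (h₂ j'))
      simpa [e] using congrFun (hA this) i
    have m2 (i') : w₁ i * ‖A (Pi.single i' 1) j / A e j‖ ≤ w₁ i' := by
      have := (div_le_div_iff₀ (h₁ i') (h₁ i)).1 (hm (i', j))
      rw [norm_div, ← mul_div_assoc, div_le_iff₀ (norm_pos_iff.2 he)]
      refine le_of_mul_le_mul_left ?_ (h₂ j)
      simp only at this
      linarith
    let J : (Fin M → K) →ₗ[K] Fin (M + 1) → K :=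
      { toFun c := i.insertNth 0 c
        map_add' c d := funext fun k => i.succAboveCases (by simp) (by simp) k
        map_smul' c d := funext fun k => i.succAboveCases (by simp) (by simp) k }
    let φ : (Fin (M + 1) → K) →ₗ[K] K := (A e j)⁻¹ • (LinearMap.proj j ∘ₗ A)
    have φ0 (t) : φ t = A t j / A e j := by simp [φ, div_eq_inv_mul]
    let P : (Fin M → K) →ₗ[K] Fin (M + 1) → K := J - (φ ∘ₗ J).smulRight e
    let R : (Fin (M + 1) → K) →ₗ[K] Fin M → K := LinearMap.funLeft K K i.succAbove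
    have J0 (t) : J (R t) = t - t i • e :=
      funext fun k => i.succAboveCases (by simp [J, e]) (by simp [J, R, e]) k
    have φ1 : φ e = 1 := by rw [φ0, div_self he]
    have P0 (t) : P (R t) = t - φ t • e := by
      change J (R t) - φ (J (R t)) • e = _
      rw [J0, map_sub, map_smul, φ1, smul_eq_mul, mul_one, sub_smul]
      abel
    obtain ⟨F, a, b, a0, b0, h⟩ := ih (LinearMap.funLeft K K j.succAbove ∘ₗ A ∘ₗ P)
      (fun k => w₁ (i.succAbove k)) (fun k => w₂ (j.succAbove k))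
      ((injective_iff_map_eq_zero _).2 fun c hc => by
        have c0 : R (J c) = c := funext fun k => by simp [J, R]
        have : A (P c) = 0 := funext fun k => j.succAboveCases (by
          rw [← c0, P0, map_sub, map_smul, φ0]
          simp [he]) (fun k => congrFun hc k) k
        have := congrArg R (hA (this.trans (map_zero A).symm))
        rw [map_zero] at this
        rw [← this]
        exact funext fun k => by simp [P, J, R, e]) (fun _ => h₁ _) fun _ => h₂ _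
    refine ⟨(Fin.consLinearEquiv K fun _ => K).toLinearMap ∘ₗ φ.prod (F ∘ₗ R), Fin.cons (w₁ i) a,
      Fin.cons (w₂ j * ‖A e j‖) b, Fin.cases (h₁ i) a0,
      Fin.cases (mul_pos (h₂ j) (norm_pos_iff.2 he)) b0, fun t r hr => ⟨?_, ?_⟩⟩
    · rw [i.forall_iff_succAbove, Fin.forall_fin_succ]
      change _ ↔ w₁ i * ‖φ t‖ ≤ r ∧ ∀ k, a k * ‖F (R t) k‖ ≤ r
      rw [← (h (R t) r hr).1]
      refine and_congr_left fun c => spl_iff (h₁ i).le ?_
      have : t i - φ t = ∑ k, -(t (i.succAbove k) * φ (Pi.single (i.succAbove k) 1)) := by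
        have k : φ t = ∑ k, t k * φ (Pi.single k 1) := by
          conv_lhs => rw [pi_eq_sum_univ' t]
          simp only [map_sum, map_smul, smul_eq_mul]
        rw [k, Fin.sum_univ_succAbove _ i, φ1, Finset.sum_neg_distrib]
        ring
      rw [this]
      refine spl_sum _ (h₁ i).le hr fun k _ => le_trans ?_ (c k)
      rw [norm_neg, norm_mul, mul_left_comm, φ0, mul_comm]
      exact mul_le_mul_of_nonneg_right (m2 _) (norm_nonneg _)
    · rw [j.forall_iff_succAbove, Fin.forall_fin_succ]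
      change _ ↔ w₂ j * ‖A e j‖ * ‖φ t‖ ≤ r ∧ ∀ k, b k * ‖F (R t) k‖ ≤ r
      rw [← (h (R t) r hr).2, mul_assoc, ← norm_mul, φ0, mul_div_cancel₀ _ he]
      refine and_congr_right fun c => forall_congr' fun k => spl_iff (h₂ _).le (le_trans ?_ c)
      change w₂ _ * ‖A t _ - A (P (R t)) (j.succAbove k)‖ ≤ _
      rw [P0, map_sub, map_smul, Pi.sub_apply, sub_sub_cancel, Pi.smul_apply, norm_smul,
        mul_left_comm, ← mul_div_cancel₀ (A t j) he, ← φ0, norm_mul, ← mul_assoc (w₂ j), mul_comm]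
      exact mul_le_mul_of_nonneg_right (m1 _) (norm_nonneg _)

/-- Sorting a frame. -/
theorem spl_sort {F : Type*} [Field F] {V : Type*} [AddCommGroup V] [Module F V] {M : ℕ}
    (f : V ≃ₗ[F] Fin M → F) (c : Fin M → ℝ) : ∃ (σ : Equiv.Perm (Fin M)) (g : V ≃ₗ[F] Fin M → F),
      (Antitone fun k => c (σ k)) ∧ ∀ t k, g t k = f t (σ k) :=
  ⟨Tuple.sort fun k => -c k, f.trans (LinearEquiv.funCongrLeft F F (Tuple.sort fun k => -c k)),
    fun _ _ h => neg_le_neg_iff.1 (Tuple.monotone_sort (fun k => -c k) h), fun _ _ => rfl⟩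

/-- Common frame, ultrametric case, in terms of balls. -/
theorem spl_na_le {V : Type*} [AddCommGroup V] [Module K V] {M : ℕ} (f₁ f₂ : V ≃ₗ[K] Fin M → K)
    (w₁ w₂ : Fin M → ℝ) (h₁ : ∀ k, 0 < w₁ k) (h₂ : ∀ k, 0 < w₂ k) :
    ∃ (f : V ≃ₗ[K] Fin M → K) (a b : Fin M → ℝ), (∀ k, 0 < a k) ∧ (∀ k, 0 < b k) ∧
      (Antitone fun k => b k / a k) ∧ ∀ t r, 0 ≤ r →
        ((∀ k, w₁ k * ‖f₁ t k‖ ≤ r) ↔ ∀ k, a k * ‖f t k‖ ≤ r) ∧
        ((∀ k, w₂ k * ‖f₂ t k‖ ≤ r) ↔ ∀ k, b k * ‖f t k‖ ≤ r) := by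
  obtain ⟨F, a, b, a0, b0, h⟩ := spl_core M (f₁.symm.trans f₂).toLinearMap w₁ w₂
    (f₁.symm.trans f₂).injective h₁ h₂
  have hF : Function.Injective F := (injective_iff_map_eq_zero _).2 fun t c => funext fun k =>
    norm_le_zero_iff.1 (le_of_mul_le_mul_left
      (by simpa using (h t 0 le_rfl).1.2 (by simp [c]) k) (h₁ k))
  obtain ⟨σ, g, s1, s2⟩ := spl_sort (f₁.trans (LinearEquiv.ofInjectiveEndo F hF))
    fun k => b k / a k
  refine ⟨g, fun k => a (σ k), fun k => b (σ k), fun _ => a0 _, fun _ => b0 _, s1, fun t r hr => ?_⟩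
  have := h (f₁ t) r hr
  simp only [s2]
  rw [σ.forall_congr_right (q := fun k => a k * ‖(f₁.trans (.ofInjectiveEndo F hF)) t k‖ ≤ r),
    σ.forall_congr_right (q := fun k => b k * ‖(f₁.trans (.ofInjectiveEndo F hF)) t k‖ ≤ r)]
  simpa using this

theorem spl_iSup {ι : Type*} [Finite ι] {x y : ι → ℝ} (hx : ∀ k, 0 ≤ x k) (hy : ∀ k, 0 ≤ y k)
    (h : ∀ r, 0 ≤ r → ((∀ k, x k ≤ r) ↔ ∀ k, y k ≤ r)) : ⨆ k, x k = ⨆ k, y k :=
  le_antisymm
    (Real.iSup_le ((h _ (Real.iSup_nonneg hy)).2 (le_ciSup (Finite.bddAbove_range y)))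
      (Real.iSup_nonneg hy))
    (Real.iSup_le ((h _ (Real.iSup_nonneg hx)).1 (le_ciSup (Finite.bddAbove_range x)))
      (Real.iSup_nonneg hx))

/-- Common frame, ultrametric case. -/
theorem spl_na {V : Type*} [AddCommGroup V] [Module K V] {M : ℕ} (f₁ f₂ : V ≃ₗ[K] Fin M → K)
    (w₁ w₂ : Fin M → ℝ) (h₁ : ∀ k, 0 < w₁ k) (h₂ : ∀ k, 0 < w₂ k) :
    ∃ (f : V ≃ₗ[K] Fin M → K) (a b : Fin M → ℝ), (∀ k, 0 < a k) ∧ (∀ k, 0 < b k) ∧
      (Antitone fun k => b k / a k) ∧ ∀ t,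
        (⨆ k, w₁ k * ‖f₁ t k‖) = (⨆ k, a k * ‖f t k‖) ∧
        (⨆ k, w₂ k * ‖f₂ t k‖) = ⨆ k, b k * ‖f t k‖ := by
  obtain ⟨f, a, b, a0, b0, s, h⟩ := spl_na_le f₁ f₂ w₁ w₂ h₁ h₂
  exact ⟨f, a, b, a0, b0, s, fun t =>
    ⟨spl_iSup (fun k => mul_nonneg (h₁ k).le (norm_nonneg _))
      (fun k => mul_nonneg (a0 k).le (norm_nonneg _)) fun r hr => (h t r hr).1,
    spl_iSup (fun k => mul_nonneg (h₂ k).le (norm_nonneg _))
      (fun k => mul_nonneg (b0 k).le (norm_nonneg _)) fun r hr => (h t r hr).2⟩⟩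

end Na

/-- A weighted frame as an isomorphism onto Euclidean space. -/
noncomputable def splE {V : Type*} [AddCommGroup V] [Module ℝ V] {M : ℕ} (f : V ≃ₗ[ℝ] Fin M → ℝ)
    (w : Fin M → ℝ) (h : ∀ k, 0 < w k) : V ≃ₗ[ℝ] EuclideanSpace ℝ (Fin M) :=
  (f.trans (LinearEquiv.piCongrRight fun k => LinearEquiv.smulOfNeZero ℝ ℝ (w k) (h k).ne')).trans
    (WithLp.linearEquiv 2 ℝ _).symm

/-- Common frame, Euclidean case. -/
theorem spl_re {V : Type*} [AddCommGroup V] [Module ℝ V] {M : ℕ} (f₁ f₂ : V ≃ₗ[ℝ] Fin M → ℝ)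
    (w₁ w₂ : Fin M → ℝ) (h₁ : ∀ k, 0 < w₁ k) (h₂ : ∀ k, 0 < w₂ k) :
    ∃ (f : V ≃ₗ[ℝ] Fin M → ℝ) (a b : Fin M → ℝ), (∀ k, 0 < a k) ∧ (∀ k, 0 < b k) ∧
      (Antitone fun k => b k / a k) ∧ ∀ t,
        ∑ k, (w₁ k * ‖f₁ t k‖) ^ 2 = ∑ k, (a k * ‖f t k‖) ^ 2 ∧
        ∑ k, (w₂ k * ‖f₂ t k‖) ^ 2 = ∑ k, (b k * ‖f t k‖) ^ 2 := by
  have e (f : V ≃ₗ[ℝ] Fin M → ℝ) (w : Fin M → ℝ) (h : ∀ k, 0 < w k) (t : V) :
      ∑ k, (w k * ‖f t k‖) ^ 2 = ‖splE f w h t‖ ^ 2 := by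
    rw [EuclideanSpace.norm_sq_eq]
    exact Finset.sum_congr rfl fun k _ => by
      change _ = ‖w k * f t k‖ ^ 2
      rw [norm_mul, Real.norm_of_nonneg (h k).le]
  let A := ((splE f₁ w₁ h₁).symm.trans (splE f₂ w₂ h₂)).toLinearMap
  have hT := A.isSymmetric_adjoint_mul_self
  have hn : Module.finrank ℝ (EuclideanSpace ℝ (Fin M)) = M := by simp
  let u := hT.eigenvectorBasis hn
  have k1 (x) : ‖A x‖ ^ 2 = ∑ k, hT.eigenvalues hn k * u.repr x k ^ 2 := by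
    rw [← real_inner_self_eq_norm_sq, ← LinearMap.adjoint_inner_left, ← u.repr.inner_map_map,
      PiLp.inner_apply]
    refine Finset.sum_congr rfl fun k _ => ?_
    have : u.repr (A.adjoint (A x)) k = _ := hT.eigenvectorBasis_apply_self_apply hn x k
    simp only [this, RCLike.inner_apply, conj_trivial, RCLike.ofReal_real_eq_id, id, u]
    ring
  have k2 (k) : 0 < hT.eigenvalues hn k := by
    have := k1 (u k)
    rw [Finset.sum_eq_single k (fun l _ c => by simp [c]) (by simp)] at this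
    have p : 0 < ‖A (u k)‖ := norm_pos_iff.2 fun c => u.orthonormal.ne_zero k
      (((splE f₁ w₁ h₁).symm.trans (splE f₂ w₂ h₂)).map_eq_zero_iff.1 c)
    simpa using (pow_pos p 2).trans_eq this
  refine ⟨((splE f₁ w₁ h₁).trans u.repr.toLinearEquiv).trans (WithLp.linearEquiv 2 ℝ _),
    fun _ => 1, fun k => √(hT.eigenvalues hn k), fun _ => one_pos, fun k => Real.sqrt_pos.2 (k2 k),
    fun i j c => by simpa using Real.sqrt_le_sqrt (hT.eigenvalues_antitone hn c), fun t => ⟨?_, ?_⟩⟩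
  · rw [e f₁ w₁ h₁, ← u.repr.norm_map, EuclideanSpace.norm_sq_eq]
    exact Finset.sum_congr rfl fun k _ => by rw [one_mul]; rfl
  · rw [e f₂ w₂ h₂, show splE f₂ w₂ h₂ t = A (splE f₁ w₁ h₁ t) by simp [A], k1]
    refine Finset.sum_congr rfl fun k _ => ?_
    rw [mul_pow, Real.sq_sqrt (k2 k).le, Real.norm_eq_abs, sq_abs]
    rfl

/-- A nonzero vector that vanishes below `i` in one frame and above `i` in another one. -/
theorem spl_meet {F : Type*} [Field F] {V : Type*} [AddCommGroup V] [Module F V] {M : ℕ}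
    (f g : V ≃ₗ[F] Fin M → F) (i : Fin M) :
    ∃ t : V, t ≠ 0 ∧ (∀ k < i, f t k = 0) ∧ ∀ k, i < k → g t k = 0 := by
  let L : (Fin M → F) →ₗ[F] {k // k ≠ i} → F := LinearMap.pi fun k =>
    if k.1 < i then LinearMap.proj k.1 else LinearMap.proj k.1 ∘ₗ (f.symm.trans g).toLinearMap
  obtain ⟨x, h1, h2⟩ := (Submodule.ne_bot_iff _).1 (LinearMap.ker_ne_bot_of_finrank_lt (f := L) (by
    have := i.pos
    simp only [Module.finrank_fintype_fun_eq_card, Fintype.card_subtype_compl,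
      Fintype.card_subtype_eq, Fintype.card_fin]
    omega))
  refine ⟨f.symm x, f.symm.map_ne_zero_iff.2 h2, fun k c => ?_, fun k c => ?_⟩
  · simpa [L, c] using congrFun h1 ⟨k, c.ne⟩
  · simpa [L, c.not_gt] using congrFun h1 ⟨k, c.ne'⟩

/-- The relative spectrum of two norms is Lipschitz. -/
theorem minmax {F : Type*} [NormedField F] {V : Type*} [AddCommGroup V] [Module F V] {M : ℕ}
    (N : (Fin M → ℝ) → ℝ) (mono : ∀ x y : Fin M → ℝ, (∀ k, 0 ≤ x k) → (∀ k, x k ≤ y k) → N x ≤ N y)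
    (smul : ∀ (c : ℝ) (x : Fin M → ℝ), 0 ≤ c → (∀ k, 0 ≤ x k) → N (fun k => c * x k) = c * N x)
    (pos : ∀ x : Fin M → ℝ, (∀ k, 0 ≤ x k) → x ≠ 0 → 0 < N x)
    (f f₁ : V ≃ₗ[F] Fin M → F) {a b a₁ b₁ : Fin M → ℝ} (ha : ∀ k, 0 < a k) (hb : ∀ k, 0 < b k)
    (ha₁ : ∀ k, 0 < a₁ k) (hb₁ : ∀ k, 0 < b₁ k) (s : Antitone fun k => b k / a k)
    (s₁ : Antitone fun k => b₁ k / a₁ k) {D E : ℝ} (hE : 0 ≤ E)
    (hx : ∀ t, N (fun k => a k * ‖f t k‖) ≤ D * N fun k => a₁ k * ‖f₁ t k‖)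
    (hξ : ∀ t, N (fun k => b₁ k * ‖f₁ t k‖) ≤ E * N fun k => b k * ‖f t k‖) (i : Fin M) :
    b₁ i / a₁ i ≤ D * E * (b i / a i) := by
  obtain ⟨t, t0, t1, t2⟩ := spl_meet f f₁ i
  have n (w : Fin M → ℝ) (h : ∀ k, 0 < w k) (g : V ≃ₗ[F] Fin M → F) (k) : 0 ≤ w k * ‖g t k‖ :=
    mul_nonneg (h k).le (norm_nonneg _)
  have l := (div_pos (hb i) (ha i)).le
  have l₁ := (div_pos (hb₁ i) (ha₁ i)).le
  have p : 0 < N fun k => a₁ k * ‖f₁ t k‖ := pos _ (n _ ha₁ _) fun c =>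
    t0 (f₁.map_eq_zero_iff.1 (funext fun k => by simpa [(ha₁ k).ne'] using congrFun c k))
  have e1 : b₁ i / a₁ i * N (fun k => a₁ k * ‖f₁ t k‖) ≤ N fun k => b₁ k * ‖f₁ t k‖ := by
    rw [← smul _ _ l₁ (n _ ha₁ _)]
    refine mono _ _ (fun k => mul_nonneg l₁ (n _ ha₁ _ k)) fun k => ?_
    rcases lt_or_ge i k with c | c
    · simp [t2 k c]
    · rw [← mul_assoc]
      exact mul_le_mul_of_nonneg_right ((le_div_iff₀ (ha₁ k)).1 (s₁ c)) (norm_nonneg _)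
  have e2 : N (fun k => b k * ‖f t k‖) ≤ b i / a i * N fun k => a k * ‖f t k‖ := by
    rw [← smul _ _ l (n _ ha _)]
    refine mono _ _ (n _ hb _) fun k => ?_
    rcases lt_or_ge k i with c | c
    · simp [t1 k c]
    · rw [← mul_assoc]
      exact mul_le_mul_of_nonneg_right ((div_le_iff₀ (ha k)).1 (s c)) (norm_nonneg _)
  refine le_of_mul_le_mul_right (e1.trans ((hξ t).trans ?_)) p
  calc _ ≤ E * (b i / a i * (D * N fun k => a₁ k * ‖f₁ t k‖)) :=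
        mul_le_mul_of_nonneg_left (e2.trans (mul_le_mul_of_nonneg_left (hx t) l)) hE
    _ = _ := by ring

end Pool.Agent.Lib.MP_5d3e93_al.GQ
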